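import Pool.Agent.Run7.h840.IfaceC

/-!
# Signals (C1)
-/

namespace Run7.h688.UD

open Run7.h840 Complex Filter Topology

theorem norm_n0 : ‖cu n0i‖ = 1 := by
  have : ‖cu n0i‖ ^ 2 = 1 := by
    rw [Complex.sq_norm, Complex.normSq_apply]
    unfold cu n0i S1
    norm_num
  nlinarith [norm_nonneg (cu n0i)]

theorem ev_lt (B C : ℝ) (hC : 0 < C) : ∀ᶠ δ in 𝓝[>] (0 : ℝ), δ * B < C := by
  have h : Tendsto (fun δ : ℝ => δ * B) (𝓝 0) (𝓝 (0 * B)) :=
    (continuous_id.mul continuous_const).tendsto 0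
  rw [zero_mul] at h
  exact (h.eventually (eventually_lt_nhds hC)).filter_mono nhdsWithin_le_nhds

theorem dt_mul_unit (n0 x y : ℂ) (h : ‖n0‖ = 1) : dt (x * n0) (y * n0) = dt x y := by
  have h2 : n0.re * n0.re + n0.im * n0.im = 1 := by
    rw [← Complex.normSq_apply, ← Complex.sq_norm, h, one_pow]
  unfold dt
  simp only [Complex.mul_re, Complex.mul_im]
  linear_combination (x.re * y.re + x.im * y.im) * h2

theorem C1 : S_C1 := by
  rintro σ mB nL ⟨y0, y1, h, c, hs⟩ ε hε
  obtain ⟨S, hS⟩ : ∃ S, S = ∑ j ∈ Finset.range nL, |h j| := ⟨_, rfl⟩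
  have hS0 : 0 ≤ S := hS ▸ Finset.sum_nonneg fun _ _ => abs_nonneg _
  have hSj : ∀ j < nL, |h j| ≤ S := by
    intro j hj
    rw [hS]
    exact Finset.single_le_sum (f := fun j => |h j|) (fun i _ => abs_nonneg _)
      (Finset.mem_range.2 hj)
  obtain ⟨K, hK⟩ : ∃ K, K = 1 + 4 / ε * S := ⟨_, rfl⟩
  have hK0 : 0 < K := by rw [hK]; positivity
  have hKS : S ≤ K * (ε / 4) := by
    rw [hK]
    have : 4 / ε * S * (ε / 4) = S := by field_simp
    nlinarith
  obtain ⟨a, ha⟩ : ∃ a : ℕ → ℝ, a = fun j => if j < nL then h j / K else 0 := ⟨_, rfl⟩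
  have ha1 : ∀ j, |a j| ≤ ε / 4 := by
    intro j
    rw [ha]
    simp only
    split_ifs with hj
    · rw [abs_div, abs_of_pos hK0, div_le_iff₀ hK0]
      linarith [hSj j hj]
    · rw [abs_zero]; positivity
  have ha2 : ∀ j < nL, K * a j = h j := by
    intro j hj
    rw [ha]
    simp only [if_pos hj]
    field_simp
  set n0 := cu n0i with hn0
  have hn : ‖n0‖ = 1 := norm_n0
  obtain ⟨r, hr⟩ : ∃ r : ℕ → ℝ, r = fun j => ‖(1 + a j * I : ℂ)‖ := ⟨_, rfl⟩
  have hr1 : ∀ j, 1 ≤ r j := by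
    intro j
    rw [hr]
    have := Complex.abs_re_le_norm (1 + a j * I : ℂ)
    simpa using this
  have hr2 : ∀ j, r j ≤ 1 + |a j| := by
    intro j
    rw [hr]
    refine (norm_add_le _ _).trans ?_
    simp
  obtain ⟨w, hw⟩ : ∃ w : ℕ → ℂ, w = fun p => (y0 p + K * y1 p * I : ℂ) := ⟨_, rfl⟩
  have e1 : ∀ᶠ δ in 𝓝[>] (0 : ℝ), ∀ p ∈ Finset.range mB, δ * ‖w p‖ < ε :=
    (Filter.eventually_all_finset _).2 fun p _ => ev_lt _ _ hε
  have e2 : ∀ᶠ δ in 𝓝[>] (0 : ℝ), ∀ j ∈ Finset.range nL, δ * |c j| < ε :=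
    (Filter.eventually_all_finset _).2 fun p _ => ev_lt _ _ hε
  have e3 : ∀ᶠ δ in 𝓝[>] (0 : ℝ), ∀ p ∈ Finset.range mB, ∀ j ∈ Finset.range nL,
      δ * ‖w p + c j‖ ^ 2 < if σ p j = true then 2 * ((c j + y0 p + h j * y1 p) / r j) else
        -(2 * ((c j + y0 p + h j * y1 p) / r j)) := by
    refine (Filter.eventually_all_finset _).2 fun p hp =>
      (Filter.eventually_all_finset _).2 fun j hj => ?_
    rw [Finset.mem_range] at hp hj
    obtain ⟨s1, s2⟩ := hs p hp j hj
    have hrj : 0 < r j := by linarith [hr1 j]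
    split_ifs with hb
    · exact ev_lt _ _ (mul_pos two_pos (div_pos (s1 hb) hrj))
    · have := div_neg_of_neg_of_pos (s2 (by simpa using hb)) hrj
      exact ev_lt _ _ (by linarith)
  obtain ⟨δ, ⟨h1, h2, h3⟩, hδ⟩ := ((e1.and (e2.and e3)).and self_mem_nhdsWithin).exists
  have hδ : 0 < δ := hδ
  refine ⟨fun p => if p < mB then cu Z0i + δ * w p * n0 else cu Z0i,
    fun j => if j < nL then cu Z0i - δ * c j * n0 else cu Z0i,
    fun j => (1 + a j * I) / r j * n0, ?_, ?_, ?_, ?_, ?_⟩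
  · intro p
    simp only
    split_ifs with hp
    · rw [add_sub_cancel_left, norm_mul, norm_mul, hn, mul_one, Complex.norm_real,
        Real.norm_of_nonneg hδ.le]
      exact (h1 p (Finset.mem_range.2 hp)).le
    · rw [sub_self, norm_zero]; exact hε.le
  · intro j
    simp only
    split_ifs with hj
    · rw [sub_sub_cancel_left, norm_neg, norm_mul, norm_mul, hn, mul_one, Complex.norm_real,
        Complex.norm_real, Real.norm_of_nonneg hδ.le]
      exact (h2 j (Finset.mem_range.2 hj)).le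
    · rw [sub_self, norm_zero]; exact hε.le
  · intro j
    have hrj : 0 < r j := by linarith [hr1 j]
    have hrc : (r j : ℂ) ≠ 0 := by exact_mod_cast hrj.ne'
    have e : (1 + a j * I) / r j * n0 - n0 = (1 + a j * I - r j) / r j * n0 := by
      field_simp
    simp only
    rw [e, norm_mul, hn, mul_one, norm_div, Complex.norm_real, Real.norm_of_nonneg hrj.le,
      div_le_iff₀ hrj]
    have e2 : (1 + a j * I - r j : ℂ) = ((1 - r j : ℝ) : ℂ) + a j * I := by push_cast; ring
    rw [e2]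
    refine (norm_add_le _ _).trans ?_
    rw [Complex.norm_real, norm_mul, Complex.norm_I, mul_one, Complex.norm_real, Real.norm_eq_abs,
      Real.norm_eq_abs, abs_sub_comm, abs_of_nonneg (by linarith [hr1 j])]
    have := hr1 j
    have := hr2 j
    have := ha1 j
    nlinarith
  · intro j
    have hrj : 0 < r j := by linarith [hr1 j]
    simp only
    rw [norm_mul, hn, mul_one, norm_div, Complex.norm_real, Real.norm_of_nonneg hrj.le]
    have : ‖(1 + a j * I : ℂ)‖ = r j := by rw [hr]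
    rw [this, div_self hrj.ne']
  · intro p hp j hj
    have hrj : 0 < r j := by linarith [hr1 j]
    have hrc : (r j : ℂ) ≠ 0 := by exact_mod_cast hrj.ne'
    simp only [if_pos hp, if_pos hj]
    have e : cu Z0i + δ * w p * n0 - (cu Z0i - δ * c j * n0) = (δ * (w p + c j)) * n0 := by ring
    rw [e, dt_mul_unit _ _ _ hn, norm_mul, hn, mul_one, norm_mul, Complex.norm_real,
      Real.norm_of_nonneg hδ.le]
    have e3 : dt (δ * (w p + c j)) ((1 + a j * I) / r j) =
        δ * ((c j + y0 p + h j * y1 p) / r j) := by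
      rw [← ha2 j hj, hw]
      have e4 : (1 + a j * I) / r j = ((1 / r j : ℝ) : ℂ) + ((a j / r j : ℝ) : ℂ) * I := by
        push_cast
        field_simp
      rw [e4]
      have e5 : (δ : ℂ) * ((y0 p : ℂ) + K * y1 p * I + c j) =
          ((δ * (y0 p + c j) : ℝ) : ℂ) + ((δ * (K * y1 p) : ℝ) : ℂ) * I := by
        push_cast
        ring
      simp only [e5]
      unfold dt
      simp only [Complex.add_re, Complex.add_im, Complex.mul_re, Complex.mul_im,
        Complex.ofReal_re, Complex.ofReal_im, Complex.I_re, Complex.I_im]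
      field_simp
      ring
    rw [e3]
    have h4 := h3 p (Finset.mem_range.2 hp) j (Finset.mem_range.2 hj)
    constructor
    · intro hb
      rw [if_pos hb] at h4
      nlinarith
    · intro hb
      rw [if_neg (by rw [hb]; simp)] at h4
      nlinarith

end Run7.h688.UD
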