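import Pool.Agent.Run7.h840.IfaceC

/-!
# The ring: genericity (S_gen), ring against ring (S_C6b)
-/

namespace Run7.h688.UD

open Run7.h840 Complex Filter Topology

theorem MR_cast : (MR : ℝ) = 10 ^ 13 := by
  unfold MR
  norm_num

theorem r0_pos : 0 < (1 - 1 / (4 * MR) : ℝ) := by
  rw [MR_cast]
  norm_num

theorem r0_lt : (1 - 1 / (4 * MR) : ℝ) < 1 := by
  rw [MR_cast]
  norm_num

/-- the angle of a ring vertex -/
noncomputable def thr (k : ℕ) : ℝ := 2 * Real.pi * k / (6 * MR)

theorem rp_eq (u0 : ℂ) (k : ℕ) :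
    rp u0 k = ((1 - 1 / (4 * MR) : ℝ) : ℂ) * u0 * Complex.exp (I * thr k) := by
  unfold rp thr
  congr 2
  push_cast
  ring

theorem norm_exp_thr (k : ℕ) : ‖Complex.exp (I * thr k)‖ = 1 := by
  rw [mul_comm]
  exact Complex.norm_exp_ofReal_mul_I _

theorem fin_RS : {s : Site | RS s}.Finite := by
  refine Set.Finite.subset (((Finset.range 15).image (Site.G 0) ∪
    ((Finset.range 15 ×ˢ Finset.range 6).image (fun t => Site.A t.1 t.2) ∪
    (Finset.range 15 ×ˢ Finset.range 6).image (fun t => Site.Bd t.1 t.2))).finite_toSet) ?_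
  intro s hs
  rw [Finset.mem_coe, Finset.mem_union, Finset.mem_union]
  cases s with
  | G l i =>
    obtain ⟨rfl, h1, h2⟩ := hs
    exact Or.inl (Finset.mem_image_of_mem _ (Finset.mem_range.2 (by omega)))
  | A i k =>
    obtain ⟨h1, h2, h3⟩ := hs
    refine Or.inr (Or.inl (Finset.mem_image.2 ⟨(i, k), Finset.mem_product.2
      ⟨Finset.mem_range.2 (by simp only; omega), Finset.mem_range.2 h3⟩, rfl⟩))
  | Bd i k =>
    obtain ⟨h1, h2, h3⟩ := hs
    refine Or.inr (Or.inr (Finset.mem_image.2 ⟨(i, k), Finset.mem_product.2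
      ⟨Finset.mem_range.2 (by simp only; omega), Finset.mem_range.2 h3⟩, rfl⟩))
  | Th i j => exact absurd hs (by simp [RS])
  | Kd l k => exact absurd hs (by simp [RS])
  | H i k => exact absurd hs (by simp [RS])

theorem fin_bad (c e : ℂ) (r : ℝ) (hr0 : 0 < r) (hr1 : r < 1) (he : ‖e‖ = 1) :
    {u : ℂ | ‖u‖ = 1 ∧ ‖c - r * u * e‖ = 1}.Finite := by
  by_cases hc : c = 0
  · refine Set.Finite.subset Set.finite_empty ?_
    rintro u ⟨h1, h2⟩
    rw [hc, zero_sub, norm_neg, norm_mul, norm_mul, h1, he, Complex.norm_real,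
      Real.norm_of_nonneg hr0.le] at h2
    exact absurd h2 (by linarith)
  · set b : ℂ := (starRingEnd ℂ) c * e with hb
    have hb0 : b ≠ 0 := by
      rw [hb]
      refine mul_ne_zero ?_ ?_
      · simpa using hc
      · intro h
        rw [h, norm_zero] at he
        exact absurd he (by norm_num)
    set t : ℝ := (‖c‖ ^ 2 + r ^ 2 - 1) / (2 * r) with ht
    set q : ℝ := Real.sqrt (‖b‖ ^ 2 - t ^ 2) with hq
    refine Set.Finite.subset (Set.Finite.image (fun z : ℂ => z / b)
      (Set.toFinite ({⟨t, q⟩, ⟨t, -q⟩} : Set ℂ))) ?_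
    rintro u ⟨h1, h2⟩
    refine ⟨u * b, ?_, mul_div_cancel_right₀ _ hb0⟩
    have h3 : ‖c - r * u * e‖ ^ 2 = 1 := by rw [h2, one_pow]
    have hu : u.re * u.re + u.im * u.im = 1 := by
      rw [← Complex.normSq_apply, ← Complex.sq_norm, h1, one_pow]
    have hee : e.re * e.re + e.im * e.im = 1 := by
      rw [← Complex.normSq_apply, ← Complex.sq_norm, he, one_pow]
    have hcc : c.re * c.re + c.im * c.im = ‖c‖ ^ 2 := by
      rw [← Complex.normSq_apply, ← Complex.sq_norm]
    have h4 : (u * b).re = t := by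
      rw [ht, eq_div_iff (by positivity), ← hcc]
      rw [Complex.sq_norm, Complex.normSq_apply] at h3
      simp only [hb, Complex.sub_re, Complex.sub_im, Complex.mul_re, Complex.mul_im,
        Complex.ofReal_re, Complex.ofReal_im, Complex.conj_re, Complex.conj_im] at h3 ⊢
      linear_combination (-1) * h3 + (r ^ 2) * hu + (r ^ 2) * (u.re * u.re + u.im * u.im) * (hee)
    have h5 : (u * b).re * (u * b).re + (u * b).im * (u * b).im = ‖b‖ ^ 2 := by
      rw [← Complex.normSq_apply, ← Complex.sq_norm, norm_mul, h1, one_mul]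
    have h6 : (u * b).im ^ 2 = ‖b‖ ^ 2 - t ^ 2 := by
      rw [h4] at h5
      linarith
    have h7 : q ^ 2 = (u * b).im ^ 2 := by
      rw [hq, Real.sq_sqrt (by rw [← h6]; positivity), h6]
    rcases sq_eq_sq_iff_eq_or_eq_neg.1 h7 with h | h
    · left
      exact Complex.ext h4 h.symm
    · right
      refine Complex.ext h4 ?_
      show _ = -q
      rw [h, neg_neg]

theorem gen : S_gen := by
  have hinf : {u : ℂ | ‖u‖ = 1}.Infinite := by
    refine Set.infinite_of_injOn_mapsTo (f := fun x : ℝ => (⟨x, Real.sqrt (1 - x ^ 2)⟩ : ℂ))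
      (s := Set.Icc (0 : ℝ) 1) ?_ ?_ (Set.Icc_infinite one_pos)
    · intro x _ y _ h
      exact congrArg Complex.re h
    · rintro x ⟨h1, h2⟩
      show ‖_‖ = 1
      have h3 : ‖(⟨x, Real.sqrt (1 - x ^ 2)⟩ : ℂ)‖ ^ 2 = 1 := by
        rw [Complex.sq_norm, Complex.normSq_apply]
        show x * x + Real.sqrt (1 - x ^ 2) * Real.sqrt (1 - x ^ 2) = 1
        rw [Real.mul_self_sqrt (by nlinarith)]
        ring
      nlinarith [norm_nonneg (⟨x, Real.sqrt (1 - x ^ 2)⟩ : ℂ)]
  have hfin : (⋃ k ∈ Finset.range (6 * MR), ⋃ s ∈ {s : Site | RS s},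
      {u : ℂ | ‖u‖ = 1 ∧ ‖rpos s - ((1 - 1 / (4 * MR) : ℝ) : ℂ) * u *
        Complex.exp (I * thr k)‖ = 1}).Finite := by
    refine Set.Finite.biUnion (Finset.finite_toSet _) fun k _ =>
      Set.Finite.biUnion fin_RS fun s _ => ?_
    exact fin_bad _ _ _ r0_pos r0_lt (norm_exp_thr k)
  obtain ⟨u, hu, hu2⟩ := hinf.exists_notMem_finite hfin
  refine ⟨u, hu, fun k hk s hs h => hu2 ?_⟩
  rw [Set.mem_iUnion₂]
  refine ⟨k, Finset.mem_range.2 hk, ?_⟩
  rw [Set.mem_iUnion₂]
  refine ⟨s, hs, hu, ?_⟩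
  rw [← rp_eq]
  exact h

theorem norm_rp_sub (u0 : ℂ) (hu : ‖u0‖ = 1) (k k' : ℕ) :
    ‖rp u0 k - rp u0 k'‖ = (1 - 1 / (4 * MR)) *
      |2 * Real.sin (Real.pi * ((k : ℝ) - k') / (6 * MR))| := by
  have e : rp u0 k - rp u0 k' = ((1 - 1 / (4 * MR) : ℝ) : ℂ) * u0 * Complex.exp (I * thr k') *
      (Complex.exp (I * ((thr k - thr k' : ℝ) : ℂ)) - 1) := by
    rw [rp_eq, rp_eq]
    have : Complex.exp (I * thr k) = Complex.exp (I * thr k') *
        Complex.exp (I * ((thr k - thr k' : ℝ) : ℂ)) := by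
      rw [← Complex.exp_add]
      congr 1
      push_cast
      ring
    rw [this]
    ring
  rw [e, norm_mul, norm_mul, norm_mul, hu, norm_exp_thr, Complex.norm_real,
    Real.norm_of_nonneg r0_pos.le, mul_one, mul_one, Complex.norm_exp_I_mul_ofReal_sub_one,
    Real.norm_eq_abs]
  congr 4
  unfold thr
  ring

theorem sin_big {x : ℝ} (hx : Real.pi / 6 + Real.pi / (6 * MR) ≤ x)
    (hx' : x ≤ Real.pi - (Real.pi / 6 + Real.pi / (6 * MR))) :
    1 < (1 - 1 / (4 * MR)) * |2 * Real.sin x| := by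
  have hpi := Real.pi_gt_d2
  have hpi2 := Real.pi_lt_d2
  rw [MR_cast] at *
  set y := Real.pi / (6 * 10 ^ 13) with hy
  have y0 : 3.14 / (6 * 10 ^ 13) < y := by
    rw [hy]
    gcongr
  have y1 : y < 3.15 / (6 * 10 ^ 13) := by
    rw [hy]
    gcongr
  have y0' : 0 < y := lt_trans (by norm_num) y0
  have hs : Real.sin (Real.pi / 6 + y) ≤ Real.sin x := by
    rcases le_total x (Real.pi / 2) with h | h
    · exact Real.sin_le_sin_of_le_of_le_pi_div_two (by linarith) h hx
    · rw [← Real.sin_pi_sub x]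
      exact Real.sin_le_sin_of_le_of_le_pi_div_two (by linarith) (by linarith) (by linarith)
  have h1 : Real.sin (Real.pi / 6 + y) ≥ 1 / 2 + 0.85 * y := by
    rw [Real.sin_add, Real.sin_pi_div_six, Real.cos_pi_div_six]
    have h2 := Real.one_sub_sq_div_two_le_cos (x := y)
    have h3 := Real.sin_gt_sub_cube y0'
    have h4 : (1.73 : ℝ) < Real.sqrt 3 := by
      rw [Real.lt_sqrt (by norm_num)]
      norm_num
    have h5 : y - y ^ 3 / 6 ≥ 0.999 * y := by
      have : y ^ 2 ≤ 0.001 := by nlinarith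
      nlinarith
    have h6 : Real.sqrt 3 / 2 * Real.sin y ≥ 0.865 * (0.999 * y) := by
      have : 0 < Real.sin y := by linarith
      nlinarith
    have h7 : y ^ 2 ≤ 0.01 * y := by nlinarith
    linarith
  have h2 : 0 < Real.sin x := by linarith
  rw [abs_of_pos (by linarith)]
  nlinarith

theorem sin_small {x : ℝ} (h0 : 0 ≤ x) (hx : x ≤ Real.pi / 6) :
    (1 - 1 / (4 * MR)) * |2 * Real.sin x| ≤ 1 := by
  have hpi := Real.pi_gt_d2
  have h1 : Real.sin x ≤ 1 / 2 := by
    rw [← Real.sin_pi_div_six]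
    exact Real.sin_le_sin_of_le_of_le_pi_div_two (by linarith) (by linarith) hx
  have h2 : 0 ≤ Real.sin x := Real.sin_nonneg_of_nonneg_of_le_pi h0 (by linarith)
  rw [abs_of_nonneg (by linarith)]
  have := r0_pos
  have := r0_lt
  nlinarith

theorem C6b_lt (u0 : ℂ) (hu : ‖u0‖ = 1) (k k' : ℕ) (hk : k < 6 * MR) (h : k' < k) :
    cyc k k' = true ↔ ‖rp u0 k - rp u0 k'‖ ≤ 1 := by
  rw [norm_rp_sub u0 hu]
  have hM : (0 : ℝ) < MR := by rw [MR_cast]; norm_num
  have hpi := Real.pi_pos
  obtain ⟨d, hd⟩ : ∃ d : ℕ, k = k' + d := ⟨k - k', by omega⟩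
  have e : (k : ℝ) - k' = d := by rw [hd]; push_cast; ring
  rw [e]
  have hd6 : d < 6 * MR := by omega
  have hd1 : 0 < d := by omega
  unfold cyc
  rw [decide_eq_true_iff]
  rcases Nat.lt_or_ge MR d with h1 | h1
  · rcases Nat.lt_or_ge d (5 * MR) with h2 | h2
    · refine iff_of_false (by omega) (not_le.2 (sin_big ?_ ?_))
      · rw [div_add_div _ _ (by norm_num) (by positivity), div_le_div_iff₀ (by positivity)
          (by positivity)]
        have : (MR : ℝ) + 1 ≤ d := by exact_mod_cast h1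
        have h3 : Real.pi * (MR + 1) * (36 * MR) ≤ Real.pi * d * (36 * MR) := by gcongr
        nlinarith
      · have : (d : ℝ) + 1 ≤ 5 * MR := by exact_mod_cast h2
        rw [le_sub_iff_add_le]
        have e2 : Real.pi * d / (6 * MR) + (Real.pi / 6 + Real.pi / (6 * MR)) =
            Real.pi * (d + 1 + MR) / (6 * MR) := by
          field_simp
          ring
        rw [e2, div_le_iff₀ (by positivity)]
        have h3 : Real.pi * (d + 1 + MR) ≤ Real.pi * (5 * MR + MR) := by gcongr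
        nlinarith
    · refine iff_of_true (by omega) ?_
      have h3 : (5 * MR : ℝ) ≤ d := by exact_mod_cast h2
      have h4 : (d : ℝ) ≤ 6 * MR := by exact_mod_cast hd6.le
      rw [← Real.sin_pi_sub]
      refine sin_small ?_ ?_
      · rw [sub_nonneg, div_le_iff₀ (by positivity)]
        gcongr
      · have e2 : Real.pi - Real.pi * d / (6 * MR) = Real.pi * (6 * MR - d) / (6 * MR) := by
          field_simp
        rw [e2, div_le_div_iff₀ (by positivity) (by positivity)]
        have h5 : Real.pi * (6 * MR - d) ≤ Real.pi * MR := by gcongr; linarith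
        nlinarith
  · refine iff_of_true (by omega) (sin_small (by positivity) ?_)
    have h3 : (d : ℝ) ≤ MR := by exact_mod_cast h1
    rw [div_le_div_iff₀ (by positivity) (by positivity)]
    have h5 : Real.pi * d ≤ Real.pi * MR := by gcongr
    nlinarith

theorem C6b : S_C6b := by
  intro u0 hu k hk k' hk' hne
  rcases Nat.lt_or_gt_of_ne hne with h | h
  · have h1 : cyc k k' = cyc k' k := by
      unfold cyc
      rw [Bool.eq_iff_iff, decide_eq_true_iff, decide_eq_true_iff]
      omega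
    rw [h1, norm_sub_rev]
    exact C6b_lt u0 hu k' k hk' h
  · exact C6b_lt u0 hu k k' hk h

end Run7.h688.UD
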