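import Pool.Agent.Run7.h688.UD.C1
import Pool.Agent.Run7.h688.UD.C6a

/-!
# Existence of configurations (C2)
-/

namespace Run7.h688.UD

open Run7.h840 Complex Filter Topology

theorem cS_S2 (a : V2) : cS (vm S2 a) = cu a := by
  unfold cS cu vm SS S1 S2
  apply Complex.ext
  · simp only
    push_cast
    ring
  · simp only
    push_cast
    ring

theorem cu_va (a b : V2) : cu (va a b) = cu a + cu b := by
  unfold cu va
  apply Complex.ext
  · simp only [Complex.add_re]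
    push_cast
    ring
  · simp only [Complex.add_im]
    push_cast
    ring

theorem Xr_add (t i : ℕ) : Xr (4 * t + i) = t * cu Pc + Xr i := by
  unfold Xr
  have h1 : (4 * t + i) / 4 = t + i / 4 := by omega
  have h2 : (4 * t + i) % 4 = i % 4 := by omega
  rw [h1, h2]
  push_cast
  ring

theorem norm_near {z : ℂ} {t : ℝ} (h : |‖z‖ ^ 2 - 1| ≤ t) : |‖z‖ - 1| ≤ t := by
  have h1 := norm_nonneg z
  have h2 : ‖z‖ ^ 2 - 1 = (‖z‖ - 1) * (‖z‖ + 1) := by ring
  rw [h2, abs_mul, abs_of_nonneg (by linarith : 0 ≤ ‖z‖ + 1)] at h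
  have := abs_nonneg (‖z‖ - 1)
  nlinarith

theorem sq_sub (v n : ℂ) (hn : ‖n‖ = 1) : ‖v - n‖ ^ 2 = ‖v‖ ^ 2 - 2 * dt v n + 1 := by
  have h2 : n.re * n.re + n.im * n.im = 1 := by
    rw [← Complex.normSq_apply, ← Complex.sq_norm, hn, one_pow]
  rw [Complex.sq_norm, Complex.sq_norm, Complex.normSq_apply, Complex.normSq_apply]
  unfold dt
  simp only [Complex.sub_re, Complex.sub_im]
  linear_combination h2

theorem sq_add (v n : ℂ) (hn : ‖n‖ = 1) : ‖v + n‖ ^ 2 = ‖v‖ ^ 2 + 2 * dt v n + 1 := by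
  have h2 : n.re * n.re + n.im * n.im = 1 := by
    rw [← Complex.normSq_apply, ← Complex.sq_norm, hn, one_pow]
  rw [Complex.sq_norm, Complex.sq_norm, Complex.normSq_apply, Complex.normSq_apply]
  unfold dt
  simp only [Complex.add_re, Complex.add_im]
  linear_combination h2

theorem lt_one {z : ℂ} (h : ‖z‖ ^ 2 < 1) : ‖z‖ < 1 := by
  have := norm_nonneg z
  nlinarith

theorem one_lt {z : ℂ} (h : 1 < ‖z‖ ^ 2) : 1 < ‖z‖ := by
  have := norm_nonneg z
  nlinarith

/-- the vector at the threshold sites -/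
theorem yu_aux (hsplit : S_split) {W : ℂ}
    (hW : ‖W - (cu Z0i - cu (Yo 2))‖ ≤ 31 / 10 ^ 7) :
    ‖spa W‖ = 1 ∧ ‖W - spa W‖ = 1 ∧ ‖spa W - cu yi‖ ≤ 4 / 10 ^ 4 := by
  set W0 := cu Z0i - cu (Yo 2) with hW0
  have hre : W0.re = -128474902 / 320450000 := by
    rw [hW0]
    unfold cu Z0i Yo vs g0i g1i S1
    simp only [Complex.sub_re]
    norm_num
  have him : W0.im = -33626554 / 320450000 := by
    rw [hW0]
    unfold cu Z0i Yo vs g0i g1i S1
    simp only [Complex.sub_im]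
    norm_num
  have yre : (cu yi).re = 15141639 / 320450000 := by
    unfold cu yi S1
    norm_num
  have yim : (cu yi).im = -320092070 / 320450000 := by
    unfold cu yi S1
    norm_num
  have d1 : |W.re - W0.re| ≤ 31 / 10 ^ 7 := by
    rw [← Complex.sub_re]
    exact (Complex.abs_re_le_norm _).trans hW
  have d2 : |W.im - W0.im| ≤ 31 / 10 ^ 7 := by
    rw [← Complex.sub_im]
    exact (Complex.abs_im_le_norm _).trans hW
  rw [hre, abs_le] at d1
  rw [him, abs_le] at d2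
  have l1 : 1 / 20 ≤ ‖W‖ := by
    refine le_trans ?_ (Complex.abs_re_le_norm W)
    rw [le_abs]
    right
    linarith [d1.2]
  have l2 : ‖W‖ ≤ 9 / 5 := by
    refine (Complex.norm_le_abs_re_add_abs_im W).trans ?_
    have a1 : |W.re| ≤ 1 / 2 := by
      rw [abs_le]
      constructor <;> linarith [d1.1, d1.2]
    have a2 : |W.im| ≤ 1 / 2 := by
      rw [abs_le]
      constructor <;> linarith [d2.1, d2.2]
    linarith
  obtain ⟨s1, s2, s3, s4⟩ := hsplit W l1 l2
  have n1 : |‖cu yi‖ - 1| ≤ 1 / 10 ^ 7 := by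
    apply norm_near
    rw [Complex.sq_norm, Complex.normSq_apply, yre, yim, abs_le]
    norm_num
  have n2 : |‖W0 - cu yi‖ - 1| ≤ 1 / 10 ^ 7 := by
    apply norm_near
    rw [Complex.sq_norm, Complex.normSq_apply, Complex.sub_re, Complex.sub_im, hre, him, yre, yim,
      abs_le]
    norm_num
  have n3 : |‖W - cu yi‖ - ‖W0 - cu yi‖| ≤ 31 / 10 ^ 7 := by
    refine (abs_norm_sub_norm_le _ _).trans ?_
    rwa [sub_sub_sub_cancel_right]
  have n4 : |‖W - cu yi‖ - 1| ≤ 4 / 10 ^ 6 := by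
    rw [abs_le] at *
    constructor <;> linarith [n2.1, n2.2, n3.1, n3.2]
  have hcr : 0 < cr W (cu yi) := by
    unfold cr
    rw [yre, yim]
    nlinarith [d1.1, d1.2, d2.1, d2.2]
  have := (s4 (cu yi) (4 / 10 ^ 6) (by norm_num) (by norm_num) (n1.trans (by norm_num)) n4).1 hcr
  refine ⟨s1, ?_, by linarith⟩
  have e : W - spa W = spb W := by
    linear_combination -s3
  rw [e]
  exact s2

theorem vpo_small {e : ℝ} (he0 : 0 ≤ e) (he : e ≤ 1 / 10 ^ 20) (s : ℂ) (hs : ‖s‖ = 1) :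
    ‖s * (1 - ((Real.sqrt (1 - 100 * e ^ 2) : ℝ) - 10 * (e : ℝ) * I))‖ ≤ 1 / 10 ^ 8 := by
  rw [norm_mul, hs, one_mul]
  have h0 : 0 ≤ 100 * e ^ 2 := by positivity
  have h0' : 100 * e ^ 2 ≤ e := by
    have : e * (100 * e) ≤ e * 1 := mul_le_mul_of_nonneg_left (by linarith) he0
    nlinarith
  have h1 : 1 - 100 * e ^ 2 ≤ Real.sqrt (1 - 100 * e ^ 2) := by
    apply Real.le_sqrt_of_sq_le
    nlinarith
  have h2 : Real.sqrt (1 - 100 * e ^ 2) ≤ 1 :=
    Real.sqrt_le_iff.2 ⟨by norm_num, by linarith⟩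
  have e1 : (1 - ((Real.sqrt (1 - 100 * e ^ 2) : ℝ) - 10 * (e : ℝ) * I) : ℂ) =
      ((1 - Real.sqrt (1 - 100 * e ^ 2) : ℝ) : ℂ) + ((10 * e : ℝ) : ℂ) * I := by
    push_cast
    ring
  rw [e1]
  refine (norm_add_le _ _).trans ?_
  rw [norm_mul, Complex.norm_I, mul_one, Complex.norm_real, Complex.norm_real,
    Real.norm_of_nonneg (by linarith), Real.norm_of_nonneg (by linarith)]
  nlinarith

theorem NX_two {i : ℕ} (h : i % 4 = 0) : cS (NX (i + 2)) - cS (NX i) = cu Z0i := by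
  unfold NX
  have h1 : (i + 2) / 4 = i / 4 := by omega
  have h2 : (i + 2) % 4 = 2 := by omega
  rw [cS_S2, cS_S2, cu_va, cu_va, h1, h2, h]
  have h3 : cu (Xo 0) = 0 := by
    unfold cu Xo
    apply Complex.ext <;> simp
  have h4 : Xo 2 = Z0i := rfl
  rw [h3, h4]
  ring

theorem NY_two : cS (NY 2) = cu (Yo 2) := by
  unfold NY
  rw [cS_S2, cu_va]
  have h3 : cu (vm ((2 / 8 : ℕ) : ℤ) Pr) = 0 := by
    unfold cu vm
    apply Complex.ext <;> simp
  rw [h3, zero_add]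

theorem C2 (hsplit : S_split) (hC1 : S_C1) (hC2a : S_C2a) (hC2b : S_C2b) : S_C2 := by
  intro σ mB nL u0 hm hn hσ hu0 hgen
  have hmR : (1 : ℝ) ≤ mB := by exact_mod_cast hm
  have hnR : (1 : ℝ) ≤ nL := by exact_mod_cast hn
  obtain ⟨z, q, n, hz, hq, hn1, hn2, ht⟩ := hC1 σ mB nL hσ (1 / (10 ^ 9 * (mB + nL)))
    (by positivity)
  obtain ⟨X, X0, Xu, Xc, Xz, Xp⟩ := hC2a mB z hm (fun p => (hz p).trans (by gcongr; linarith))
  obtain ⟨Y, Y0, Yu, Yc, Yq⟩ := hC2b nL q n hn (fun p => (hq p).trans (by gcongr; linarith))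
    (fun p => (hn1 p).trans (by gcongr; linarith)) hn2
  -- margins
  have vA : ∀ p < mB, ∀ j < nL, X (4 * p + 2) + Y (8 * j + 3) - (X (4 * p) + Y (8 * j + 6)) =
      z p - q j - n j := by
    intro p hp j hj
    have h1 := Xz p hp
    have h2 := (Yq j hj).2
    linear_combination h1 - h2
  have vB : ∀ p < mB, ∀ j < nL, X (4 * p + 2) + Y (8 * j + 3) - (X (4 * p) + Y (8 * j)) =
      z p - q j + n j := by
    intro p hp j hj
    have h1 := Xz p hp
    have h2 := (Yq j hj).1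
    linear_combination h1 + h2
  have e1 : ∀ᶠ δ in 𝓝[>] (0 : ℝ), ∀ p ∈ Finset.range mB, ∀ j ∈ Finset.range nL,
      (σ p j = true → δ * 100 < 1 - ‖z p - q j - n j‖ ∧ δ * 100 < ‖z p - q j + n j‖ - 1) ∧
      (σ p j = false → δ * 100 < 1 - ‖z p - q j + n j‖ ∧ δ * 100 < ‖z p - q j - n j‖ - 1) := by
    refine (Filter.eventually_all_finset _).2 fun p hp =>
      (Filter.eventually_all_finset _).2 fun j hj => ?_
    rw [Finset.mem_range] at hp hj
    obtain ⟨t1, t2⟩ := ht p hp j hj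
    have a1 := sq_sub (z p - q j) (n j) (hn2 j)
    have a2 := sq_add (z p - q j) (n j) (hn2 j)
    have a3 := sq_nonneg ‖z p - q j‖
    cases hb : σ p j
    · have t3 := t2 hb
      have b1 := lt_one (z := z p - q j + n j) (by linarith)
      have b2 := one_lt (z := z p - q j - n j) (by linarith)
      filter_upwards [ev_lt 100 _ (by linarith : 0 < 1 - ‖z p - q j + n j‖),
        ev_lt 100 _ (by linarith : 0 < ‖z p - q j - n j‖ - 1)] with δ c1 c2
      exact ⟨fun h => absurd h (by simp), fun _ => ⟨c1, c2⟩⟩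
    · have t3 := t1 hb
      have b1 := lt_one (z := z p - q j - n j) (by linarith)
      have b2 := one_lt (z := z p - q j + n j) (by linarith)
      filter_upwards [ev_lt 100 _ (by linarith : 0 < 1 - ‖z p - q j - n j‖),
        ev_lt 100 _ (by linarith : 0 < ‖z p - q j + n j‖ - 1)] with δ c1 c2
      exact ⟨fun _ => ⟨c1, c2⟩, fun h => absurd h (by simp)⟩
  have e2 : ∀ᶠ δ in 𝓝[>] (0 : ℝ), ∀ k ∈ Finset.range (6 * MR), ∀ s ∈ {s : Site | RS s},
      δ * 100 < |‖rpos s - rp u0 k‖ - 1| := by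
    refine (Filter.eventually_all_finset _).2 fun k hk =>
      (Filter.eventually_all_finite fin_RS).2 fun s hs => ?_
    refine ev_lt _ _ (abs_pos.2 (sub_ne_zero.2 ?_))
    exact hgen k (Finset.mem_range.1 hk) s hs
  have e3 := ev_lt 1 (1 / 10 ^ 20) (by norm_num)
  obtain ⟨δ, ⟨h1, h2, h3⟩, hδ⟩ := ((e1.and (e2.and e3)).and self_mem_nhdsWithin).exists
  have hδ : 0 < δ := hδ
  rw [mul_one] at h3
  have hδ1 : δ ≤ 1 := h3.le.trans (by norm_num)
  have epos : ∀ n, 0 < δ ^ (5 ^ n) := fun n => pow_pos hδ _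
  have ele : ∀ n, δ ^ (5 ^ n) ≤ δ := by
    intro n
    have : δ ^ (5 ^ n) ≤ δ ^ 1 := pow_le_pow_of_le_one hδ.le hδ1 (Nat.one_le_pow _ _ (by norm_num))
    rwa [pow_one] at this
  set iend := iendOf mB nL with hiend
  have hie : iend = 4 * mB + (4 * (nXof mB nL - 4) + 14) := by
    rw [hiend]
    unfold iendOf nXof
    omega
  refine ⟨⟨X, Y, fun n => δ ^ (5 ^ n), fun i => spa (X (i + 2) +
    (X (i + 2 - 1) - X (i + 2)) * (1 - ((Real.sqrt (1 - 100 * (δ ^ (5 ^ (iend - (i + 2)))) ^ 2) : ℝ)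
      - 10 * (δ ^ (5 ^ (iend - (i + 2))) : ℝ) * I)) - X i - Y 2), u0, iend, 8 * nL⟩, rfl, ?_⟩
  refine ⟨hm, hn, hiend, rfl, X0, Y0, Xu, Yu, Xc, Yc, ?_, epos, ?_, ?_, ?_, ?_, hu0, ?_⟩
  · -- Xe
    intro i hi hi2
    simp only at hi hi2 ⊢
    have a1 : i = 4 * mB + (4 * (nXof mB nL - 4) + (i + 14 - iend)) := by omega
    have a2 : X i = X (4 * mB) + Xr (4 * (nXof mB nL - 4) + (i + 14 - iend)) := by
      rw [← Xp, ← a1]
    have a3 : X iend = X (4 * mB) + Xr (4 * (nXof mB nL - 4) + 14) := by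
      rw [← Xp, ← hie]
    rw [a2, a3, Xr_add, Xr_add]
    ring
  · simp only
    exact (ele 0).trans h3.le
  · intro m
    simp only
    have a1 : δ ^ (5 ^ (m + 1)) = δ ^ (5 ^ m) * (δ ^ (5 ^ m)) ^ 4 := by
      rw [← pow_mul, ← pow_add]
      congr 1
      ring
    rw [a1]
    have a2 := (ele m).trans h3.le
    have a3 : 0 < (δ ^ (5 ^ m)) ^ 4 := pow_pos (epos m) 4
    rw [mul_comm, div_eq_mul_inv]
    refine mul_le_mul_of_nonneg_left (a2.trans (by norm_num)) a3.le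
  · intro p hp j hj
    simp only
    rw [vA p hp j hj, vB p hp j hj, pow_zero, pow_one]
    obtain ⟨t1, t2⟩ := h1 p (Finset.mem_range.2 hp) j (Finset.mem_range.2 hj)
    constructor
    · intro hb
      obtain ⟨c1, c2⟩ := t1 hb
      constructor <;> linarith
    · intro hb
      obtain ⟨c1, c2⟩ := t2 hb
      constructor <;> linarith
  · intro i hi4 hir
    simp only [Par.vpo]
    set V := (X (i + 2 - 1) - X (i + 2)) *
      (1 - ((Real.sqrt (1 - 100 * (δ ^ (5 ^ (iend - (i + 2)))) ^ 2) : ℝ)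
      - 10 * (δ ^ (5 ^ (iend - (i + 2))) : ℝ) * I)) with hV
    have v1 : ‖V‖ ≤ 1 / 10 ^ 8 := by
      rw [hV]
      refine vpo_small (epos _).le ((ele _).trans h3.le) _ ?_
      have := Xu (i + 1)
      rw [norm_sub_rev]
      exact this
    have w1 : ‖X (i + 2) + V - X i - Y 2 - (cu Z0i - cu (Yo 2))‖ ≤ 31 / 10 ^ 7 := by
      have e : X (i + 2) + V - X i - Y 2 - (cu Z0i - cu (Yo 2)) =
          (X (i + 2) - cS (NX (i + 2))) - (X i - cS (NX i)) - (Y 2 - cS (NY 2)) + V := by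
        rw [← NX_two hi4, NY_two]
        ring
      rw [e]
      have b1 := Xc (i + 2)
      have b2 := Xc i
      have b3 := Yc 2
      have c1 := norm_add_le ((X (i + 2) - cS (NX (i + 2))) - (X i - cS (NX i)) -
        (Y 2 - cS (NY 2))) V
      have c2 := norm_sub_le ((X (i + 2) - cS (NX (i + 2))) - (X i - cS (NX i)))
        (Y 2 - cS (NY 2))
      have c3 := norm_sub_le (X (i + 2) - cS (NX (i + 2))) (X i - cS (NX i))
      linarith
    obtain ⟨s1, s2, s3⟩ := yu_aux hsplit w1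
    refine ⟨s1, ?_, s3⟩
    rw [norm_sub_rev, ← s2]
    congr 1
    ring
  · intro k hk s hs
    simp only
    rw [pow_zero, pow_one]
    have := h2 k (Finset.mem_range.2 hk) s hs
    linarith

end Run7.h688.UD
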