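import Pool.Agent.Run7.h688.UD.Enc

/-!
# Degrees (D2)
-/

namespace Run7.h688.UD

open Run7.h840 Pool.Agent.NPC Pool.Agent.NPC.H670R2 Pool.Agent.NPC.ER Pool.Agent.NPC.ER.Pat

/-- the rows and columns of `x` differ by at most `15` from `l`, `i` -/
def Clo (l i : ℕ) (x : Vx) : Prop :=
  (rowc x ≤ l + 15 ∧ l ≤ rowc x + 15) ∧ colc x ≤ i + 15 ∧ i ≤ colc x + 15

theorem clo_rule (σ : ℕ → ℕ → Bool) (x y : Vx) (v : Bool) (h : rule σ x y = some v) :
    Clo (rowc x) (colc x) y ∧ Clo (rowc y) (colc y) x := by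
  unfold Clo
  rcases x with ⟨l, i, b⟩ | ⟨l, i, b⟩ | ⟨i, j⟩ | ⟨i, k⟩ | ⟨i, j⟩ | ⟨i, k⟩ | ⟨l, k⟩ | ⟨i, b⟩ | ⟨i, k⟩ | k <;>
  rcases y with ⟨l', i', b'⟩ | ⟨l', i', b'⟩ | ⟨i', j'⟩ | ⟨i', k'⟩ | ⟨i', j'⟩ | ⟨i', k'⟩ | ⟨l', k'⟩ | ⟨i', b'⟩ | ⟨i', k'⟩ | k' <;>
  simp only [rule, reduceCtorEq] at h
  all_goals
    try simp only [isTest, decide_eq_true_eq] at h
    simp only [rowc, colc]
    split_ifs at h <;> omega

theorem clo_near (x y : Vx) (hx : ∀ k, x ≠ .w k) (hy : ∀ k, y ≠ .w k)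
    (h : near x.site y.site = true) : Clo (rowc x) (colc x) y := by
  unfold near win at h
  rw [Bool.and_eq_true, decide_eq_true_iff] at h
  obtain ⟨⟨h1, h2, h3, h4⟩, -⟩ := h
  unfold Clo
  rcases x with ⟨l, i, b⟩ | ⟨l, i, b⟩ | ⟨i, j⟩ | ⟨i, k⟩ | ⟨i, j⟩ | ⟨i, k⟩ | ⟨l, k⟩ | ⟨i, b⟩ | ⟨i, k⟩ | k <;>
  rcases y with ⟨l', i', b'⟩ | ⟨l', i', b'⟩ | ⟨i', j'⟩ | ⟨i', k'⟩ | ⟨i', j'⟩ | ⟨i', k'⟩ | ⟨l', k'⟩ | ⟨i', b'⟩ | ⟨i', k'⟩ | k' <;>
  first
  | exact absurd rfl (hx _)
  | exact absurd rfl (hy _)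
  | (simp only [Vx.site, Site.ci, Site.ri] at h1 h2 h3 h4
     simp only [rowc, colc]
     omega)

theorem clo_adj0 (σ : ℕ → ℕ → Bool) (x y : Vx) (hx : ∀ k, x ≠ .w k) (hy : ∀ k, y ≠ .w k)
    (h : adj0 σ x y = true) : Clo (rowc x) (colc x) y := by
  unfold adj0 at h
  cases h1 : rule σ x y with
  | some v => exact (clo_rule σ x y v h1).1
  | none =>
    cases h2 : rule σ y x with
    | some v => exact (clo_rule σ y x v h2).2
    | none =>
      rw [h1, h2] at h
      exact clo_near x y hx hy h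

/-- reference row and column -/
def rr : Vx → ℕ
  | .w _ => 0
  | x => rowc x

def cc (iend : ℕ) : Vx → ℕ
  | .w _ => iend
  | x => colc x

theorem clo_adj (rtab : ℕ → Site → Bool) (σ : ℕ → ℕ → Bool) (iend : ℕ) (x y : Vx)
    (hy : ∀ k, y ≠ .w k) (h : adj rtab σ iend x y = true) : Clo (rr x) (cc iend x) y := by
  by_cases hx : ∀ k, x ≠ .w k
  · have e1 : rr x = rowc x := by
      cases x <;> rfl
    have e2 : cc iend x = colc x := by
      cases x <;> first | rfl | exact absurd rfl (hx _)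
    have e3 : adj rtab σ iend x y = adj0 σ x y := by
      cases x <;> cases y <;> first | rfl | exact absurd rfl (hx _) | exact absurd rfl (hy _)
    rw [e1, e2]
    exact clo_adj0 σ x y hx hy (e3 ▸ h)
  · push Not at hx
    obtain ⟨k, rfl⟩ := hx
    have e3 : adj rtab σ iend (.w k) y = radj rtab iend k y := by
      cases y <;> first | rfl | exact absurd rfl (hy _)
    rw [e3] at h
    unfold radj at h
    unfold Clo
    simp only [rr, cc]
    rcases y with ⟨l', i', b'⟩ | ⟨l', i', b'⟩ | ⟨i', j'⟩ | ⟨i', k'⟩ | ⟨i', j'⟩ | ⟨i', k'⟩ | ⟨l', k'⟩ | ⟨i', b'⟩ | ⟨i', k'⟩ | k'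
    · simp only [rowc, colc]
      by_cases hc : l' = 0 ∧ iend ≤ i' + 12 ∧ i' ≤ iend
      · omega
      · simp only [rsite, if_neg hc] at h
        exact absurd h (by simp)
    · exact absurd h (by simp [rsite])
    · simp only [rowc, colc]
      by_cases hc : iend ≤ i' + 12 ∧ i' ≤ iend
      · omega
      · simp only [rsite, if_neg hc] at h
        exact absurd h (by simp)
    · simp only [rowc, colc]
      by_cases hc : iend ≤ i' + 12 ∧ i' ≤ iend
      · omega
      · simp only [rsite, if_neg hc] at h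
        exact absurd h (by simp)
    · exact absurd h (by simp [rsite])
    · simp only [rowc, colc]
      by_cases hc : iend ≤ i' + 12 ∧ i' ≤ iend
      · omega
      · simp only [rsite, if_neg hc] at h
        exact absurd h (by simp)
    · exact absurd h (by simp [rsite])
    · exact absurd h (by simp [rsite])
    · exact absurd h (by simp [rsite])
    · exact absurd rfl (hy k')

theorem D2 : S_D2 := by
  intro rtab M v
  set mB := M.length + 1 with hmB
  set nL := wid M + 1 with hnL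
  set W := iendOf mB nL + 1 with hW
  set iend := iendOf mB nL with hiend
  set A := adj rtab (ent M) iend with hA
  set x := dec W v.1 with hx
  let F : Finset ℕ := (Finset.range (6 * MR)).image (fun k => 64 * k + 33) ∪
    ((Finset.range 33 ×ˢ (Finset.Icc (rr x - 15) (rr x + 15) ×ˢ
      Finset.Icc (cc iend x - 15) (cc iend x + 15))).image
        fun t => 64 * (t.2.1 * W + t.2.2) + t.1)
  have hF : F.card ≤ 10 ^ 15 := by
    refine (Finset.card_union_le _ _).trans ?_
    have h1 : ((Finset.range (6 * MR)).image (fun k => 64 * k + 33)).card ≤ 6 * MR :=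
      Finset.card_image_le.trans (by rw [Finset.card_range])
    have h2 := Finset.card_image_le (s := Finset.range 33 ×ˢ (Finset.Icc (rr x - 15) (rr x + 15) ×ˢ
      Finset.Icc (cc iend x - 15) (cc iend x + 15)))
        (f := fun t : ℕ × ℕ × ℕ => 64 * (t.2.1 * W + t.2.2) + t.1)
    rw [Finset.card_product, Finset.card_product, Finset.card_range, Nat.card_Icc,
      Nat.card_Icc] at h2
    have h3 : (rr x + 15 + 1 - (rr x - 15)) * (cc iend x + 15 + 1 - (cc iend x - 15)) ≤ 31 * 31 :=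
      Nat.mul_le_mul (by omega) (by omega)
    have h4 := Nat.mul_le_mul_left 33 h3
    have h5 : 6 * MR + 33 * (31 * 31) ≤ 10 ^ 15 := by
      unfold MR
      norm_num
    omega
  refine le_trans ?_ hF
  rw [← Set.ncard_coe_finset]
  refine Set.ncard_le_ncard_of_injOn (fun u => u.1) ?_ (fun a _ b _ h => Subtype.ext h)
    (Finset.finite_toSet _)
  intro u hu
  have hadj : A (dec W v.1) (dec W u.1) = true := by
    have h1 : (ug rtab M).graph.Adj v u := hu
    rcases lt_trichotomy v.1 u.1 with h | h | h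
    · exact (gOf_adj h).1 h1
    · exact absurd (Subtype.ext h) h1.ne
    · rw [hA, comm]
      exact (gOf_adj h).1 h1.symm
  have hval := val_dec (mB := mB) (nL := nL) u.2
  rw [← hiend, ← hW] at hval
  obtain ⟨a1, a2⟩ := hval
  rw [Finset.mem_coe, Finset.mem_union]
  by_cases hw : ∀ k, dec W u.1 ≠ .w k
  · right
    have h2 := clo_adj rtab (ent M) iend _ _ hw hadj
    rw [← hx] at h2
    have h3 := kcode_lt a1 hw
    rw [enc_of_ne _ hw] at a2
    rw [Finset.mem_image]
    refine ⟨(kcode (dec W u.1), rowc (dec W u.1), colc (dec W u.1)), ?_, a2⟩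
    rw [Finset.mem_product, Finset.mem_product, Finset.mem_range, Finset.mem_Icc, Finset.mem_Icc]
    obtain ⟨⟨b1, b2⟩, b3, b4⟩ := h2
    refine ⟨h3, ⟨?_, b1⟩, ?_, b3⟩
    · show rr x - 15 ≤ rowc (dec W u.1)
      omega
    · show cc iend x - 15 ≤ colc (dec W u.1)
      omega
  · left
    push Not at hw
    obtain ⟨k, hk⟩ := hw
    rw [hk] at a1 a2
    rw [Finset.mem_image]
    exact ⟨k, Finset.mem_range.2 a1, a2⟩

end Run7.h688.UD
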