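import Pool.Agent.Run7.h688.UD.Enc

/-!
# Transfer (D3, D6)
-/

namespace Run7.h688.UD

open Run7.h840 Pool.Agent.NPC Pool.Agent.NPC.H670R2 Pool.Agent.NPC.ER Pool.Agent.NPC.ER.Pat

theorem D3 : S_D3 := by
  intro hcomm rtab M
  set mB := M.length + 1 with hmB
  set nL := wid M + 1 with hnL
  set W := iendOf mB nL + 1 with hW
  have hn : 1 ≤ nL := by omega
  set A := adj rtab (ent M) (iendOf mB nL) with hA
  have e := gOf_real (X := ℂ) (fun x y => ‖x - y‖ ≤ 1) (fun x y h => by rwa [norm_sub_rev])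
    (vtxU mB nL) (fun a b => A (dec W a) (dec W b))
  refine Iff.trans e ?_
  constructor
  · rintro ⟨c, hc⟩
    refine ⟨fun x => c (enc W x), fun x y hx hy hxy => ?_⟩
    have dx := dec_enc hn hx
    have dy := dec_enc hn hy
    have mx := enc_mem hn hx
    have my := enc_mem hn hy
    rw [← hW] at dx dy mx my
    have hne : enc W x ≠ enc W y := fun h => hxy (by rw [← dx, ← dy, h])
    rcases lt_or_gt_of_ne hne with h | h
    · have := hc _ mx _ my h
      rw [dx, dy] at this
      exact this
    · have := hc _ my _ mx h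
      rw [dx, dy] at this
      rw [norm_sub_rev, hA, hcomm]
      exact this
  · rintro ⟨P, hP⟩
    refine ⟨fun a => P (dec W a), fun a ha b hb hab => ?_⟩
    obtain ⟨a1, a2⟩ := val_dec ha
    obtain ⟨b1, b2⟩ := val_dec hb
    rw [← hW] at a1 a2 b1 b2
    exact hP _ _ a1 b1 (fun h => absurd (by rw [← a2, ← b2, h]) (ne_of_lt hab))

theorem D6 : S_D6 := by
  intro V G
  have key : ∀ x y : EuclideanSpace ℝ (Fin 2),
      (Metric.closedBall x 1 ∩ Metric.closedBall y 1).Nonempty ↔ dist x y ≤ 2 := by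
    intro x y
    constructor
    · rintro ⟨z, h1, h2⟩
      rw [Metric.mem_closedBall] at h1 h2
      have := dist_triangle_left x y z
      linarith
    · intro h
      refine ⟨midpoint ℝ x y, ?_, ?_⟩
      · rw [Metric.mem_closedBall, dist_midpoint_left, Real.norm_eq_abs, abs_of_pos (by norm_num)]
        linarith
      · rw [Metric.mem_closedBall, dist_midpoint_right, Real.norm_eq_abs,
          abs_of_pos (by norm_num)]
        linarith
  let φ : EuclideanSpace ℝ (Fin 2) ≃ₗᵢ[ℝ] ℂ := Complex.orthonormalBasisOneI.repr.symm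
  unfold IsUDG
  simp only [key]
  constructor
  · rintro ⟨p, hp⟩
    refine ⟨fun v => (1 / 2 : ℝ) • φ (p v), fun u v huv => ?_⟩
    rw [hp u v huv, ← smul_sub, norm_smul, ← map_sub, φ.norm_map, ← dist_eq_norm]
    norm_num
    constructor <;> intro h <;> linarith
  · rintro ⟨p, hp⟩
    refine ⟨fun v => (2 : ℝ) • φ.symm (p v), fun u v huv => ?_⟩
    rw [hp u v huv, dist_eq_norm, ← smul_sub, norm_smul, ← map_sub, φ.symm.norm_map]
    norm_num

end Run7.h688.UD
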