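import Pool.Agent.Run7.h840.IfaceD

/-!
# Sign matrices (D4, D5)
-/

namespace Run7.h688.UD

open Run7.h840 Pool.Agent.NPC Pool.Agent.NPC.H670R2 Pool.Agent.NPC.ER Pool.Agent.NPC.ER.Pat

theorem ent_out_row {M : List (List Bool)} {i j : ℕ} (hi : M.length ≤ i) : ent M i j = false := by
  unfold ent
  rw [List.getD_eq_default _ _ hi]
  simp

theorem ent_out_col {M : List (List Bool)} {m i j : ℕ} (hM : Rect m M) (hi : i < M.length)
    (hj : wid M ≤ j) : ent M i j = false := by
  unfold ent
  rw [List.getD_eq_getElem _ _ hi, List.getD_eq_default _ _ (by rw [wid_eq hM hi]; exact hj)]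

theorem D4 : S_D4 := by
  rintro M m hM ⟨y, η, c, hη, hy⟩
  set n := M.length with hn
  set w := wid M with hw
  set cj : ℕ → ℝ := fun j => c j / η j 0 with hcj
  set B := 1 + ∑ j ∈ Finset.range w, |cj j| with hB
  set C := 1 + ∑ i ∈ Finset.range n, |y i 0| with hC
  have hBc : ∀ j < w, |cj j| < B := by
    intro j hj
    have := Finset.single_le_sum (f := fun j => |cj j|) (fun i _ => abs_nonneg _)
      (Finset.mem_range.2 hj)
    linarith
  have hCy : ∀ i < n, |y i 0| < C := by
    intro i hi
    have := Finset.single_le_sum (f := fun i => |y i 0|) (fun i _ => abs_nonneg _)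
      (Finset.mem_range.2 hi)
    linarith
  have hB0 : 0 < B := by
    have := Finset.sum_nonneg (s := Finset.range w) (f := fun j => |cj j|)
      (fun i _ => abs_nonneg _)
    linarith
  have hC0 : 0 < C := by
    have := Finset.sum_nonneg (s := Finset.range n) (f := fun i => |y i 0|)
      (fun i _ => abs_nonneg _)
    linarith
  refine ⟨fun i => if i < n then y i 0 else -B, fun i => if i < n then y i 1 else 0,
    fun j => if j < w then η j 1 / η j 0 else 0, fun j => if j < w then cj j else -C, ?_⟩
  intro i hi j hj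
  by_cases h1 : i < n <;> by_cases h2 : j < w
  · simp only [if_pos h1, if_pos h2]
    have h3 : j < M[i].length := by rw [wid_eq hM h1]; exact h2
    have h4 := hy i h1 j h3
    rw [ent_eq h1 h3]
    rw [Finset.sum_range_succ, Finset.sum_range_one] at h4
    have h5 : cj j + y i 0 + η j 1 / η j 0 * y i 1 =
        (c j + (y i 0 * η j 0 + y i 1 * η j 1)) / η j 0 := by
      have := (hη j).ne'
      rw [hcj]
      field_simp
      ring
    rw [h5]
    cases hb : M[i][j]
    · rw [hb] at h4
      refine ⟨fun h => by simp at h, fun _ => div_neg_of_neg_of_pos ?_ (hη j)⟩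
      have h6 : sgn false = -1 := rfl
      rw [h6] at h4
      linarith
    · rw [hb] at h4
      refine ⟨fun _ => div_pos ?_ (hη j), fun h => by simp at h⟩
      simpa [sgn] using h4
  · simp only [if_pos h1, if_neg h2]
    rw [ent_out_col hM h1 (by omega)]
    refine ⟨fun h => by simp at h, fun _ => ?_⟩
    have := (abs_lt.1 (hCy i h1)).2
    linarith
  · simp only [if_neg h1, if_pos h2]
    rw [ent_out_row (by omega)]
    refine ⟨fun h => by simp at h, fun _ => ?_⟩
    have := (abs_lt.1 (hBc j h2)).2
    linarith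
  · simp only [if_neg h1, if_neg h2]
    rw [ent_out_row (by omega)]
    refine ⟨fun h => by simp at h, fun _ => ?_⟩
    linarith

theorem D5 : S_D5 := by
  rintro M m hM ⟨z, u, c, h⟩
  refine ⟨fun i => ![1, (z i).re, (z i).im], fun j => ![c j, (u j).re, (u j).im], ?_⟩
  intro i hi j hj
  have h1 : j < wid M := by rw [← wid_eq hM hi]; exact hj
  have h2 := h i (by omega) j (by omega)
  rw [ent_eq hi hj] at h2
  have h3 : (![1, (z i).re, (z i).im] ⬝ᵥ ![c j, (u j).re, (u j).im]) = c j + dt (z i) (u j) := by
    unfold dt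
    simp [dotProduct, Fin.sum_univ_three]
    ring
  rw [h3]
  cases hb : M[i][j]
  · have := h2.2 hb
    have h6 : sgn false = -1 := rfl
    rw [h6]
    linarith
  · have := h2.1 hb
    simpa [sgn] using this

end Run7.h688.UD
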