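import Pool.Agent.Run7.h840.IfaceD
import Pool.Agent.Run7.h840.D0

/-!
# The encoding of the vertices by numbers
-/

namespace Run7.h688.UD

open Run7.h840

theorem ir_le_iend (mB nL : ℕ) : irOf mB ≤ iendOf mB nL := by
  unfold irOf iendOf nXof
  omega

theorem mem_vtxU {mB nL a : ℕ} : a ∈ vtxU mB nL ↔
    (∃ l < 8 * nL, ∃ i < iendOf mB nL + 1, ∃ c, (c < 33 ∧ valc mB nL c l i = true) ∧
      64 * (l * (iendOf mB nL + 1) + i) + c = a) ∨ ∃ k < 6 * MR, 64 * k + 33 = a := by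
  unfold vtxU
  simp only [List.mem_append, List.mem_flatMap, List.mem_map, List.mem_filter, List.mem_range]

theorem mkv_val {mB nL c l i : ℕ} (hc : c < 33) (h : valc mB nL c l i = true) :
    Val mB nL (mkv c l i) ∧ kcode (mkv c l i) = c ∧ rowc (mkv c l i) = l ∧
      colc (mkv c l i) = i := by
  have hir := ir_le_iend mB nL
  unfold valc at h
  interval_cases c <;> simp at h <;>
    simp [mkv, Val, kcode, rowc, colc] <;> omega

theorem kcode_lt {mB nL : ℕ} {x : Vx} (h : Val mB nL x) (hw : ∀ k, x ≠ .w k) : kcode x < 33 := by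
  rcases x with ⟨l, i, b⟩ | ⟨l, i, b⟩ | ⟨i, j⟩ | ⟨i, k⟩ | ⟨i, j⟩ | ⟨i, k⟩ | ⟨l, k⟩ | ⟨i, b⟩ | ⟨i, k⟩ | k <;>
    simp only [Val] at h <;> simp only [kcode] <;> first | omega | (split_ifs <;> omega) |
      exact absurd rfl (hw k)

theorem enc_of_ne (W : ℕ) {x : Vx} (hw : ∀ k, x ≠ .w k) :
    enc W x = 64 * (rowc x * W + colc x) + kcode x := by
  rcases x with ⟨l, i, b⟩ | ⟨l, i, b⟩ | ⟨i, j⟩ | ⟨i, k⟩ | ⟨i, j⟩ | ⟨i, k⟩ | ⟨l, k⟩ | ⟨i, b⟩ | ⟨i, k⟩ | k <;>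
    first | rfl | exact absurd rfl (hw k)

theorem mkv_code {mB nL : ℕ} {x : Vx} (h : Val mB nL x) (hw : ∀ k, x ≠ .w k) :
    mkv (kcode x) (rowc x) (colc x) = x := by
  rcases x with ⟨l, i, b⟩ | ⟨l, i, b⟩ | ⟨i, j⟩ | ⟨i, k⟩ | ⟨i, j⟩ | ⟨i, k⟩ | ⟨l, k⟩ | ⟨i, b⟩ | ⟨i, k⟩ | k
  · cases b <;> rfl
  · cases b <;> rfl
  · obtain ⟨-, -, h⟩ := h
    interval_cases j <;> rfl
  · obtain ⟨-, -, h⟩ := h
    interval_cases k <;> rfl
  · obtain ⟨-, -, h⟩ := h
    interval_cases j <;> rfl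
  · obtain ⟨-, -, h1, h2⟩ := h
    interval_cases k <;> rfl
  · obtain ⟨-, h1, h2⟩ := h
    interval_cases k <;> rfl
  · cases b <;> rfl
  · obtain ⟨-, -, h1, h2⟩ := h
    interval_cases k <;> rfl
  · exact absurd rfl (hw k)

theorem valc_code {mB nL : ℕ} (hn : 1 ≤ nL) {x : Vx} (h : Val mB nL x) (hw : ∀ k, x ≠ .w k) :
    rowc x < 8 * nL ∧ colc x < iendOf mB nL + 1 ∧
      valc mB nL (kcode x) (rowc x) (colc x) = true := by
  have hir := ir_le_iend mB nL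
  rcases x with ⟨l, i, b⟩ | ⟨l, i, b⟩ | ⟨i, j⟩ | ⟨i, k⟩ | ⟨i, j⟩ | ⟨i, k⟩ | ⟨l, k⟩ | ⟨i, b⟩ | ⟨i, k⟩ | k
  · simp only [Val] at h
    refine ⟨by simp only [rowc]; omega, by simp only [colc]; omega, ?_⟩
    cases b <;> exact decide_eq_true h
  · simp only [Val] at h
    refine ⟨by simp only [rowc]; omega, by simp only [colc]; omega, ?_⟩
    cases b <;> exact decide_eq_true h
  · obtain ⟨h1, h2, h⟩ := h
    interval_cases j <;> simp [kcode, rowc, colc, valc] <;> omega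
  · obtain ⟨h1, h2, h⟩ := h
    interval_cases k <;> simp [kcode, rowc, colc, valc] <;> omega
  · obtain ⟨h1, h2, h⟩ := h
    interval_cases j <;> simp [kcode, rowc, colc, valc] <;> omega
  · obtain ⟨h1, h2, h3, h4⟩ := h
    interval_cases k <;> simp [kcode, rowc, colc, valc] <;> omega
  · obtain ⟨h1, h2, h3⟩ := h
    interval_cases k <;> simp [kcode, rowc, colc, valc] <;> omega
  · obtain ⟨h1, h2⟩ := h
    cases b <;> simp [kcode, rowc, colc, valc] <;> omega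
  · obtain ⟨h1, h2, h3, h4⟩ := h
    interval_cases k <;> simp [kcode, rowc, colc, valc] <;> omega
  · exact absurd rfl (hw k)

theorem dec_code {W c l i : ℕ} (hi : i < W) (hc : c < 33) :
    dec W (64 * (l * W + i) + c) = mkv c l i := by
  unfold dec
  have h1 : (64 * (l * W + i) + c) % 64 = c := by omega
  have h2 : (64 * (l * W + i) + c) / 64 = l * W + i := by omega
  have hW : 0 < W := by omega
  have h3 : (l * W + i) / W = l := by
    rw [mul_comm, Nat.mul_add_div hW, Nat.div_eq_of_lt hi, add_zero]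
  have h4 : (l * W + i) % W = i := by
    rw [mul_comm, Nat.mul_add_mod, Nat.mod_eq_of_lt hi]
  rw [h1, h2, h3, h4, if_neg (by omega)]

theorem dec_ring (W k : ℕ) : dec W (64 * k + 33) = .w k := by
  unfold dec
  rw [if_pos (by omega)]
  congr 1
  omega

theorem dec_enc {mB nL : ℕ} (hn : 1 ≤ nL) {x : Vx} (h : Val mB nL x) :
    dec (iendOf mB nL + 1) (enc (iendOf mB nL + 1) x) = x := by
  by_cases hw : ∀ k, x ≠ .w k
  · obtain ⟨-, h2, -⟩ := valc_code hn h hw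
    rw [enc_of_ne _ hw, dec_code h2 (kcode_lt h hw), mkv_code h hw]
  · push Not at hw
    obtain ⟨k, rfl⟩ := hw
    exact dec_ring _ k

theorem enc_mem {mB nL : ℕ} (hn : 1 ≤ nL) {x : Vx} (h : Val mB nL x) :
    enc (iendOf mB nL + 1) x ∈ vtxU mB nL := by
  rw [mem_vtxU]
  by_cases hw : ∀ k, x ≠ .w k
  · obtain ⟨h1, h2, h3⟩ := valc_code hn h hw
    exact Or.inl ⟨_, h1, _, h2, _, ⟨kcode_lt h hw, h3⟩, (enc_of_ne _ hw).symm⟩
  · push Not at hw
    obtain ⟨k, rfl⟩ := hw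
    exact Or.inr ⟨k, h, rfl⟩

theorem val_dec {mB nL a : ℕ} (h : a ∈ vtxU mB nL) :
    Val mB nL (dec (iendOf mB nL + 1) a) ∧
      enc (iendOf mB nL + 1) (dec (iendOf mB nL + 1) a) = a := by
  rw [mem_vtxU] at h
  rcases h with ⟨l, hl, i, hi, c, ⟨hc, hv⟩, rfl⟩ | ⟨k, hk, rfl⟩
  · rw [dec_code hi hc]
    obtain ⟨h1, h2, h3, h4⟩ := mkv_val hc hv
    refine ⟨h1, ?_⟩
    rw [enc_of_ne, h2, h3, h4]
    intro k hk
    rw [hk] at h2
    simp only [kcode] at h2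
    omega
  · rw [dec_ring]
    exact ⟨hk, rfl⟩

end Run7.h688.UD
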